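import Pool.Agent.U529.CP.Alg

/-!
# MP_0a86e9_an, Q1: three commuting unital completely positive maps without any dilation

There are three commuting unital (normal) completely positive maps on `B(H)`, `H = ℂ^11`, such that the
associated semigroup over `ℕ^3` has no dilation, not even a dilation in which the algebra `B` is only
a `*`-subalgebra of `B(K)` and the `*`-endomorphisms of `B` are not required to be normal.

Idea. Let `E = |Ω⟩⟨Ω|`. For a dilation `θ` of a unital semigroup `T` the spaces `θ_s(E) B E` form, with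
the product `f * g = θ_t(f) g`, `g ∈ θ_t(E) B E`, a superproduct system of Hilbert spaces (for every
`B`!), which contains the subproduct system of `T`. We take a subproduct system over `ℕ^3` with
`E_1 = ℂ²`, `E_2 = E_3 = ℂ`, `E_{ij} = E_i ⊗ E_j ≅ E_j ⊗ E_i` and no components of degree three, in
which the identifications do not satisfy the hexagon (Yang-Baxter) condition. It cannot be a part of
a superproduct system. Its shifts on the Fock space `ℂ^10` give three commuting completely positive
maps, which are not unital; adding one more basis vector `ω` we get commuting unital maps,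
`T_i(a) = ∑ S a S^* + ⟨ω, a ω⟩ (1 - ∑ S S^*)`, with the same obstruction.
-/

set_option autoImplicit false

open scoped CStarAlgebra InnerProductSpace Topology
open Filter

namespace Pool.Agent.Results.MP_0a86e9_an.NoDilation

universe u v

section Definitions

variable {H : Type v} [NormedAddCommGroup H] [InnerProductSpace ℂ H] [CompleteSpace H]

/-- A map between operators is normal: it is continuous on bounded sets for the weak operator
topology (for bounded linear maps on `B(H)` this is continuity for the ultraweak topology). -/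
def IsNormal (Φ : (H →L[ℂ] H) → (H →L[ℂ] H)) : Prop :=
  ∀ (l : Filter (H →L[ℂ] H)) (a : H →L[ℂ] H), (∃ C : ℝ, ∀ᶠ x in l, ‖x‖ ≤ C) →
    (∀ ξ η : H, Tendsto (fun x : H →L[ℂ] H => ⟪ξ, x η⟫_ℂ) l (𝓝 ⟪ξ, a η⟫_ℂ)) →
    ∀ ξ η : H, Tendsto (fun x : H →L[ℂ] H => ⟪ξ, Φ x η⟫_ℂ) l (𝓝 ⟪ξ, Φ a η⟫_ℂ)

/-- Completely positive maps on `B(H)` (the notion of Mathlib). -/
def IsCP (Φ : (H →L[ℂ] H) → (H →L[ℂ] H)) : Prop :=
  ∃ φ : (H →L[ℂ] H) →CP (H →L[ℂ] H), ∀ a, φ a = Φ a

/-- The semigroup `T_s = T_1^{s_1} T_2^{s_2} T_3^{s_3}` of a commuting triple of maps on `B(H)`. -/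
def semigroup (T : Fin 3 → (H →L[ℂ] H) → (H →L[ℂ] H)) (s : Fin 3 → ℕ)
    (a : H →L[ℂ] H) : H →L[ℂ] H :=
  (T 0)^[s 0] ((T 1)^[s 1] ((T 2)^[s 2] a))

/-- The operator `J a J^*` on `K` for an operator `a` on `H` and an isometric embedding `J` of `H`
into `K`, that is, the operator `a` regarded as an element of the corner `p B(K) p`, where
`p = J J^*` is the projection onto `H ⊆ K`. -/
noncomputable def amplify {K : Type u} [NormedAddCommGroup K] [InnerProductSpace ℂ K]
    [CompleteSpace K] (J : H →ₗᵢ[ℂ] K) (a : H →L[ℂ] H) : K →L[ℂ] K :=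
  J.toContinuousLinearMap ∘L a ∘L ContinuousLinearMap.adjoint J.toContinuousLinearMap

/-- The compression `J^* b J` of an operator `b` on `K` to `H`. -/
noncomputable def compress {K : Type u} [NormedAddCommGroup K] [InnerProductSpace ℂ K]
    [CompleteSpace K] (J : H →ₗᵢ[ℂ] K) (b : K →L[ℂ] K) : H →L[ℂ] H :=
  ContinuousLinearMap.adjoint J.toContinuousLinearMap ∘L b ∘L J.toContinuousLinearMap

/-- `B` is a `*`-algebra of operators on `K` (for instance a von Neumann algebra). -/
structure IsStarAlgebra {K : Type u} [NormedAddCommGroup K] [InnerProductSpace ℂ K]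
    [CompleteSpace K] (B : Set (K →L[ℂ] K)) : Prop where
  add_mem : ∀ a ∈ B, ∀ b ∈ B, a + b ∈ B
  smul_mem : ∀ c : ℂ, ∀ a ∈ B, c • a ∈ B
  mul_mem : ∀ a ∈ B, ∀ b ∈ B, a * b ∈ B
  star_mem : ∀ a ∈ B, star a ∈ B

/-- `f` is a `*`-endomorphism of `B`, not necessarily unital or normal. -/
structure IsStarEndomorphism {K : Type u} [NormedAddCommGroup K] [InnerProductSpace ℂ K]
    [CompleteSpace K] (B : Set (K →L[ℂ] K)) (f : (K →L[ℂ] K) → (K →L[ℂ] K)) : Prop where
  mem : ∀ a ∈ B, f a ∈ B
  add : ∀ a ∈ B, ∀ b ∈ B, f (a + b) = f a + f b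
  smul : ∀ c : ℂ, ∀ a ∈ B, f (c • a) = c • f a
  mul : ∀ a ∈ B, ∀ b ∈ B, f (a * b) = f a * f b
  star : ∀ a ∈ B, f (star a) = star (f a)

/-- A dilation, on the Hilbert space `K`, of the semigroup over `ℕ^3` given by three commuting
maps on `B(H)`, in a weak sense. `H` is embedded in `K` by `J`; `B` is a `*`-algebra of operators on
`K`, for instance a von Neumann algebra, which contains the corner `p B(K) p = B(H)` (in particular it
contains the projection `p = J J^*`, and `p B p = B(H)`); `θ` is a semigroup over `ℕ^3` of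
`*`-endomorphisms of `B`, not necessarily unital or normal; the compression to `H` of `θ_s(a)` is
`T_s(a)` for all `s` and all `a` in `B(H)`. -/
structure Dilation (T : Fin 3 → (H →L[ℂ] H) → (H →L[ℂ] H)) (K : Type u)
    [NormedAddCommGroup K] [InnerProductSpace ℂ K] [CompleteSpace K] where
  /-- the embedding of `H` in `K` -/
  J : H →ₗᵢ[ℂ] K
  /-- the algebra -/
  B : Set (K →L[ℂ] K)
  isStarAlgebra : IsStarAlgebra B
  /-- the corner `p B p` is `B(H)` -/
  corner : ∀ a : H →L[ℂ] H, amplify J a ∈ B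
  /-- the semigroup of `*`-endomorphisms -/
  θ : (Fin 3 → ℕ) → (K →L[ℂ] K) → (K →L[ℂ] K)
  endo : ∀ s, IsStarEndomorphism B (θ s)
  θ_zero : ∀ b ∈ B, θ 0 b = b
  θ_add : ∀ s t, ∀ b ∈ B, θ (s + t) b = θ s (θ t b)
  /-- `p θ_s(a) p = T_s(a)` -/
  dilates : ∀ s a, compress J (θ s (amplify J a)) = semigroup T s a

end Definitions

open Pool.Agent.U529.CP

/-- the Hilbert space `ℂ^11` -/
abbrev H11 := EuclideanSpace ℂ (Fin 11)

/-- matrices as operators -/
noncomputable def Φ : Mat ≃⋆ₐ[ℂ] (H11 →L[ℂ] H11) := Matrix.toEuclideanCLM (n := Fin 11) (𝕜 := ℂ)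

/-- the three maps -/
noncomputable def T (i : Fin 3) : (H11 →L[ℂ] H11) →CP (H11 →L[ℂ] H11) :=
  kraus fun k => Φ (Vm (srcF i k) (sgF i k))

theorem T_Φ (i : Fin 3) (a : Mat) : T i (Φ a) = Φ (t i a) := by
  have h : ∑ k, Vm (srcF i k) (sgF i k) * a * star (Vm (srcF i k) (sgF i k)) = t i a := by
    fin_cases i
    · exact kraus_t0 a
    · exact kraus_t1 a
    · exact kraus_t2 a
  rw [← h, map_sum]
  show ∑ k, Φ (Vm (srcF i k) (sgF i k)) * Φ a * star (Φ (Vm (srcF i k) (sgF i k))) = _
  refine Finset.sum_congr rfl fun k _ => ?_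
  rw [map_mul, map_mul, map_star]

theorem comm_table : ∀ i j : Fin 3, ∀ r c,
    wt2 (srcF i) (sgF i) (kkF i) (sgF j) (kkF j) r c = wt2 (srcF j) (sgF j) (kkF j) (sgF i) (kkF i) r c ∧
      (wt2 (srcF i) (sgF i) (kkF i) (sgF j) (kkF j) r c = 0 ∨
        (row2 (srcF i) (kkF i) (srcF j) (kkF j) r c = row2 (srcF j) (kkF j) (srcF i) (kkF i) r c ∧
          col2 (srcF i) (kkF i) (srcF j) (kkF j) r c = col2 (srcF j) (kkF j) (srcF i) (kkF i) r c)) := by
  decide +kernel

theorem t_comm (i j : Fin 3) (a : Mat) : t i (t j a) = t j (t i a) :=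
  comm_tt _ _ _ _ _ _ (comm_table i j) a

theorem T_comm (i j : Fin 3) (x : H11 →L[ℂ] H11) : T i (T j x) = T j (T i x) := by
  obtain ⟨a, rfl⟩ := EquivLike.surjective Φ x
  rw [T_Φ, T_Φ, T_Φ, T_Φ, t_comm]

theorem T_one (i : Fin 3) : T i 1 = 1 := by
  rw [← map_one Φ, T_Φ, unital]

theorem T_normal (i : Fin 3) : IsNormal (T i) := by
  intro l a _ h ξ η
  have e : ∀ x : H11 →L[ℂ] H11, ⟪ξ, T i x η⟫_ℂ =
      ∑ k, ⟪ContinuousLinearMap.adjoint (Φ (Vm (srcF i k) (sgF i k))) ξ,
        x (ContinuousLinearMap.adjoint (Φ (Vm (srcF i k) (sgF i k))) η)⟫_ℂ := by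
    intro x
    show ⟪ξ, (∑ k, Φ (Vm (srcF i k) (sgF i k)) * x * star (Φ (Vm (srcF i k) (sgF i k)))) η⟫_ℂ = _
    rw [sum_apply, inner_sum]
    refine Finset.sum_congr rfl fun k _ => ?_
    rw [ContinuousLinearMap.adjoint_inner_left]
    rfl
  simp only [e]
  exact tendsto_finsetSum _ fun k _ => h _ _

section

variable {K : Type u} [NormedAddCommGroup K] [InnerProductSpace ℂ K] [CompleteSpace K]

theorem adj_J (J : H11 →ₗᵢ[ℂ] K) :
    ContinuousLinearMap.adjoint J.toContinuousLinearMap ∘L J.toContinuousLinearMap = 1 := by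
  ext1 x
  refine ext_inner_left ℂ fun y => ?_
  rw [ContinuousLinearMap.comp_apply, ContinuousLinearMap.adjoint_inner_right]
  exact J.inner_map_map y x

theorem J_adj (J : H11 →ₗᵢ[ℂ] K) (y : H11) :
    ContinuousLinearMap.adjoint J.toContinuousLinearMap (J.toContinuousLinearMap y) = y :=
  DFunLike.congr_fun (adj_J J) y

theorem amplify_add (J : H11 →ₗᵢ[ℂ] K) (a b : H11 →L[ℂ] H11) :
    amplify J (a + b) = amplify J a + amplify J b := by
  unfold amplify
  ext1 x
  simp

theorem amplify_smul (J : H11 →ₗᵢ[ℂ] K) (c : ℂ) (a : H11 →L[ℂ] H11) :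
    amplify J (c • a) = c • amplify J a := by
  unfold amplify
  ext1 x
  simp

theorem amplify_mul (J : H11 →ₗᵢ[ℂ] K) (a b : H11 →L[ℂ] H11) :
    amplify J (a * b) = amplify J a * amplify J b := by
  unfold amplify
  ext1 x
  show J.toContinuousLinearMap (a (b _)) = J.toContinuousLinearMap (a
    (ContinuousLinearMap.adjoint J.toContinuousLinearMap (J.toContinuousLinearMap (b _))))
  rw [J_adj]

theorem amplify_star (J : H11 →ₗᵢ[ℂ] K) (a : H11 →L[ℂ] H11) :
    amplify J (star a) = star (amplify J a) := by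
  unfold amplify
  rw [ContinuousLinearMap.star_eq_adjoint, ContinuousLinearMap.star_eq_adjoint,
    ContinuousLinearMap.adjoint_comp, ContinuousLinearMap.adjoint_comp,
    ContinuousLinearMap.adjoint_adjoint]
  rfl

theorem compress_amplify (J : H11 →ₗᵢ[ℂ] K) (x : H11 →L[ℂ] H11) : compress J (amplify J x) = x := by
  ext1 y
  show ContinuousLinearMap.adjoint J.toContinuousLinearMap (J.toContinuousLinearMap (x
    (ContinuousLinearMap.adjoint J.toContinuousLinearMap (J.toContinuousLinearMap y)))) = x y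
  rw [J_adj, J_adj]

/-- the algebra of a dilation as a subalgebra -/
def alg (D : Dilation (fun i => T i) K) : NonUnitalStarSubalgebra ℂ (K →L[ℂ] K) where
  carrier := D.B
  add_mem' := fun {a b} ha hb => D.isStarAlgebra.add_mem a ha b hb
  zero_mem' := by
    have h := D.isStarAlgebra.smul_mem 0 _ (D.corner 0)
    rwa [zero_smul] at h
  mul_mem' := fun {a b} ha hb => D.isStarAlgebra.mul_mem a ha b hb
  smul_mem' := fun c a ha => D.isStarAlgebra.smul_mem c a ha
  star_mem' := fun {a} ha => D.isStarAlgebra.star_mem a ha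

/-- the endomorphisms of a dilation -/
def endo (D : Dilation (fun i => T i) K) (s : Fin 3 → ℕ) : alg D →⋆ₙₐ[ℂ] alg D where
  toFun b := ⟨D.θ s b, (D.endo s).mem b b.2⟩
  map_smul' c b := Subtype.ext ((D.endo s).smul c b b.2)
  map_zero' := by
    apply Subtype.ext
    have h := (D.endo s).smul 0 (0 : K →L[ℂ] K) (alg D).zero_mem
    simpa using h
  map_add' a b := Subtype.ext ((D.endo s).add a a.2 b b.2)
  map_mul' a b := Subtype.ext ((D.endo s).mul a a.2 b b.2)
  map_star' a := Subtype.ext ((D.endo s).star a a.2)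

/-- the data for the algebraic part of the proof -/
noncomputable def toData (D : Dilation (fun i => T i) K) : Data (alg D) where
  pos x h := by
    have h1 : star (x : K →L[ℂ] K) * (x : K →L[ℂ] K) = 0 := by
      have := congrArg Subtype.val h
      simpa using this
    have h2 := CStarRing.star_mul_self_eq_zero_iff (x : K →L[ℂ] K) |>.1 h1
    exact Subtype.ext h2
  ι :=
    { toFun := fun a => ⟨amplify D.J (Φ a), D.corner (Φ a)⟩
      map_smul' := by
        intro c a
        apply Subtype.ext
        show amplify D.J (Φ (c • a)) = c • amplify D.J (Φ a)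
        rw [map_smul, amplify_smul]
      map_zero' := by
        apply Subtype.ext
        show amplify D.J (Φ 0) = 0
        rw [map_zero]
        unfold amplify
        ext1 x
        simp
      map_add' := by
        intro a b
        apply Subtype.ext
        show amplify D.J (Φ (a + b)) = amplify D.J (Φ a) + amplify D.J (Φ b)
        rw [map_add, amplify_add]
      map_mul' := by
        intro a b
        apply Subtype.ext
        show amplify D.J (Φ (a * b)) = amplify D.J (Φ a) * amplify D.J (Φ b)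
        rw [map_mul, amplify_mul]
      map_star' := by
        intro a
        apply Subtype.ext
        show amplify D.J (Φ (star a)) = star (amplify D.J (Φ a))
        rw [map_star, amplify_star] }
  inj := by
    intro a b h
    have h1 : amplify D.J (Φ a) = amplify D.J (Φ b) := congrArg Subtype.val h
    apply EquivLike.injective Φ
    rw [← compress_amplify D.J (Φ a), ← compress_amplify D.J (Φ b), h1]
  C b := Φ.symm (compress D.J (b : K →L[ℂ] K))
  hC := by
    intro b
    apply Subtype.ext
    show amplify D.J (Φ 1) * (b : K →L[ℂ] K) * amplify D.J (Φ 1) =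
      amplify D.J (Φ (Φ.symm (compress D.J (b : K →L[ℂ] K))))
    rw [StarAlgEquiv.apply_symm_apply, map_one]
    rfl
  θ i := endo D (Pi.single i 1)
  comm i j b := by
    apply Subtype.ext
    show D.θ _ (D.θ _ (b : K →L[ℂ] K)) = D.θ _ (D.θ _ (b : K →L[ℂ] K))
    rw [← D.θ_add _ _ _ b.2, ← D.θ_add _ _ _ b.2, add_comm]
  dil i a := by
    show Φ.symm (compress D.J (D.θ (Pi.single i 1) (amplify D.J (Φ a)))) = t i a
    rw [D.dilates]
    apply EquivLike.injective Φ
    rw [StarAlgEquiv.apply_symm_apply, ← T_Φ]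
    fin_cases i <;> simp [semigroup]

end

/-- **A full (positive) answer to Q1.** There are three commuting unital normal completely positive
maps on the von Neumann algebra `B(ℂ^11)` such that the semigroup over `ℕ^3` given by them has no
dilation on any Hilbert space `K`, minimal or not, whatever the algebra `B ⊆ B(K)` is. -/
theorem result : ∃ T : Fin 3 → (H11 →L[ℂ] H11) → (H11 →L[ℂ] H11),
    (∀ i, IsCP (T i)) ∧ (∀ i, T i 1 = 1) ∧ (∀ i, IsNormal (T i)) ∧
    (∀ i j a, T i (T j a) = T j (T i a)) ∧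
    ∀ (K : Type u) [NormedAddCommGroup K] [InnerProductSpace ℂ K] [CompleteSpace K],
      IsEmpty (Dilation T K) :=
  ⟨fun i => T i, fun i => ⟨T i, fun _ => rfl⟩, T_one, T_normal, T_comm,
    fun _ _ _ _ => ⟨fun D => (toData D).contra⟩⟩

end Pool.Agent.Results.MP_0a86e9_an.NoDilation
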